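import Mathlib
import Pool.Agent.Q76.PcSharpFinal

/-!
# MP_07f1b5_pr, Question 1: the answer is yes, with the optimal modulus `s log (1 / s)`
-/

namespace Pool.Agent.Results.MP_07f1b5_pr.SharpDecorrelation

open Q76.Pc

universe u

/-- (1) Question 1. (2) For every countable graph and `s = P(ab|c)`:
`P(abc) - P(ac) P(bc) ≤ 8 s log (1 / s)`. (3) The order `s log (1 / s)` is optimal: for
`s = 2 ^ (-(2 k + 1))` there are connected graphs with `k + 2` vertices and all edge
probabilities `1 / 2` for which the left side is at least `(6 / 25) s log (1 / s)`. -/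
theorem result :
    (∀ ε : ℝ, 0 < ε → ∃ δ : ℝ, 0 < δ ∧
      ∀ (V : Type u) [Finite V] (G : SimpleGraph V) (p : G.edgeSet → unitInterval) (a b c : V),
        a ≠ b → a ≠ c → b ≠ c → Pab_c G p a b c < δ →
          Pabc G p a b c - Pconn G p a c * Pconn G p b c < ε) ∧
    (∀ (V : Type u) [Countable V] (G : SimpleGraph V) (p : G.edgeSet → unitInterval)
      (a b c : V), Pabc G p a b c - Pconn G p a c * Pconn G p b c ≤
        8 * (Pab_c G p a b c * Real.log (1 / Pab_c G p a b c))) ∧
    (∀ k : ℕ, 1 ≤ k → ∃ (G : SimpleGraph (Fin (k + 2))) (a b c : Fin (k + 2)),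
      G.Connected ∧ a ≠ b ∧ a ≠ c ∧ b ≠ c ∧
      Pab_c G (fun _ => half) a b c = (1 / 2) ^ (2 * k + 1) ∧
      6 / 25 * (Pab_c G (fun _ => half) a b c * Real.log (1 / Pab_c G (fun _ => half) a b c)) ≤
        Pabc G (fun _ => half) a b c -
          Pconn G (fun _ => half) a c * Pconn G (fun _ => half) b c) := by
  have hcount : ∀ (V : Type u) [Countable V] (G : SimpleGraph V), Countable G.edgeSet := by
    intro V _ G
    have : Countable (Sym2 V) := by
      unfold Sym2
      infer_instance
    infer_instance
  refine ⟨?_, ?_, fan_lower⟩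
  · intro ε hε
    refine ⟨(ε / 16) ^ 2, by positivity, ?_⟩
    intro V _ G p a b c _ _ _ h
    have : Countable G.edgeSet := hcount V G
    exact modulus_bound G p a b c hε h
  · intro V _ G p a b c
    have : Countable G.edgeSet := hcount V G
    exact sharp_bound G p a b c

end Pool.Agent.Results.MP_07f1b5_pr.SharpDecorrelation
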